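import Pool.Agent.H98.EU.SDefs

/-!
# Sys, part 1: `chain`, `gate`, `tsys`
-/

set_option autoImplicit false

namespace Pool.Agent.H58.EU

open Pool.Agent.H98.EU

/-- completions compose -/
theorem chain {N N1 N2 : ℕ} {S1 S2 : List Ins} {pre pre2 : (M : Type) → [CommSemiring M] → [LinearOrder M] → (ℕ → M) → Prop}
    (hN : 3 ≤ N) (h01 : N ≤ N1) (h12 : N1 ≤ N2) (hS1 : Below N1 S1) (h1 : Cpl N N1 S1 pre) (h2 : Cpl N1 N2 S2 pre2)
    (hpre : ∀ (M : Type) [CommSemiring M] [LinearOrder M], PAminus M → ∀ w w' : ℕ → M, w 1 = 1 → w 2 = 0 →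
      (∀ i < N, w' i = w i) → pre M w → Sat S1 w' → pre2 M w') : Cpl N N2 (S1 ++ S2) pre := by
  obtain ⟨E1, h1⟩ := h1
  obtain ⟨E2, h2⟩ := h2
  refine ⟨(E1 + 2) * E2, ?_⟩
  intro M _ _ P w W hw1 hw2 hwW hp
  obtain ⟨w', ha, hb, hc⟩ := h1 M P w W hw1 hw2 hwW hp
  have hw1' : w' 1 = 1 := by rw [ha 1 (by omega), hw1]
  have hw2' : w' 2 = 0 := by rw [ha 2 (by omega), hw2]
  obtain ⟨w'', ha', hb', hc'⟩ := h2 M P w' ((W + 2) ^ E1) hw1' hw2' hb (hpre M P w w' hw1 hw2 ha hp hc)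
  refine ⟨w'', ?_, ?_, ?_⟩
  · intro i hi
    rw [ha' i (by omega), ha i hi]
  · intro i hi
    exact (hb' i hi).trans (P.comp_bd W E1 E2)
  · rw [Sat_append]
    exact ⟨Sat_congr hS1 (fun i hi => (ha' i hi).symm) hc, hc'⟩

/-- a new place with a determined value -/
theorem gate (N o j k l : ℕ) (ho : o ≤ 2) (hN : 3 ≤ N) (hj : j < N) (hk : k < N) (hl : l < N) :
    Cpl N (N + 1) [⟨o, j, k, l, N⟩] (fun _ _ _ _ => True) := by
  refine ⟨4, ?_⟩
  intro M _ _ P w W hw1 hw2 hwW _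
  have key : ∀ u : M, u ≤ (W + 2) ^ 4 → Rl (o : M) (w j) (w k) (w l) u →
      ∃ w' : ℕ → M, (∀ i < N, w' i = w i) ∧ (∀ i < N + 1, w' i ≤ (W + 2) ^ 4) ∧ Sat [⟨o, j, k, l, N⟩] w' := by
    intro u hu hR
    refine ⟨Function.update w N u, ?_, ?_, ?_⟩
    · intro i hi
      rw [Function.update_of_ne (by omega)]
    · intro i hi
      by_cases hiN : i = N
      · rw [hiN, Function.update_self]
        exact hu
      · rw [Function.update_of_ne hiN]
        exact (P.le_pow_one (hwW i (by omega))).trans (P.pow_mono W (by omega))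
    · intro c hc
      rw [List.mem_singleton] at hc
      subst hc
      show Rl (o : M) (Function.update w N u j) (Function.update w N u k) (Function.update w N u l)
        (Function.update w N u N)
      rw [Function.update_self, Function.update_of_ne (by omega), Function.update_of_ne (by omega),
        Function.update_of_ne (by omega)]
      exact hR
  have h0 : (0 : M) ≤ (W + 2) ^ 4 := P.nonneg _
  have h1 : (1 : M) ≤ (W + 2) ^ 4 := P.one_le_pow W 4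
  have hcase : o = 0 ∨ o = 1 ∨ o = 2 := by omega
  rcases hcase with rfl | rfl | rfl
  · refine key (w j * w k + w l) ?_ ((Rl0 P).mpr rfl)
    exact P.add_bd (P.mul_bd (P.le_pow_one (hwW j hj)) (P.le_pow_one (hwW k hk))) (P.le_pow_one (hwW l hl))
  · by_cases h : w j = w k
    · exact key 1 h1 ((Rl1 P).mpr (Or.inl ⟨rfl, h⟩))
    · exact key 0 h0 ((Rl1 P).mpr (Or.inr ⟨rfl, h⟩))
  · by_cases h : w j < w k
    · exact key 1 h1 ((Rl2 P).mpr (Or.inl ⟨rfl, h⟩))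
    · exact key 0 h0 ((Rl2 P).mpr (Or.inr ⟨rfl, h⟩))

/-- no instruction -/
theorem cpl_nil (N : ℕ) : Cpl N N [] (fun _ _ _ _ => True) := by
  refine ⟨1, ?_⟩
  intro M _ _ P w W _ _ hwW _
  exact ⟨w, fun _ _ => rfl, fun i hi => P.le_pow_one (hwW i hi), fun c hc => absurd hc List.not_mem_nil⟩

theorem below_nil (N : ℕ) : Below N [] := fun _ hc => absurd hc List.not_mem_nil

/-- two systems and a gate -/
theorem cpl_two {N N1 N2 o j k l : ℕ} {S1 S2 : List Ins} (hN : 3 ≤ N) (h01 : N ≤ N1) (h12 : N1 ≤ N2) (hS1 : Below N1 S1)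
    (hS2 : Below N2 S2) (h1 : Cpl N N1 S1 (fun _ _ _ _ => True)) (h2 : Cpl N1 N2 S2 (fun _ _ _ _ => True)) (ho : o ≤ 2)
    (hj : j < N2) (hk : k < N2) (hl : l < N2) :
    Cpl N (N2 + 1) ((S1 ++ S2) ++ [⟨o, j, k, l, N2⟩]) (fun _ _ _ _ => True) := by
  refine chain hN (h01.trans h12) (Nat.le_succ N2) (Below_append.mpr ⟨Below_mono hS1 h12, hS2⟩)
    (chain hN h01 h12 hS1 h1 h2 ?_) (gate N2 o j k l ho (by omega) hj hk hl) ?_
  · intro M _ _ _ w w' _ _ _ _ _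
    trivial
  · intro M _ _ _ w w' _ _ _ _ _
    trivial

theorem below_two {N1 N2 o j k l : ℕ} {S1 S2 : List Ins} (h12 : N1 ≤ N2) (hS1 : Below N1 S1)
    (hS2 : Below N2 S2) (hj : j < N2) (hk : k < N2) (hl : l < N2) :
    Below (N2 + 1) ((S1 ++ S2) ++ [⟨o, j, k, l, N2⟩]) := by
  rw [Below_append, Below_append]
  refine ⟨⟨Below_mono hS1 (by omega), Below_mono hS2 (by omega)⟩, ?_⟩
  intro c hc
  rw [List.mem_singleton] at hc
  subst hc
  exact ⟨by show j < N2 + 1; omega, by show k < N2 + 1; omega, by show l < N2 + 1; omega, Nat.lt_succ_self N2⟩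

theorem tsys (t : Tm) : ∀ (N : ℕ) (ρ : ℕ → ℕ), 3 ≤ N → (∀ i ∈ t.vars, ρ i < N) → ∃ (S : List Ins) (N' r : ℕ),
    N ≤ N' ∧ r < N' ∧ Below N' S ∧
    (∀ (M : Type) [CommSemiring M] [LinearOrder M], PAminus M → ∀ w : ℕ → M, w 1 = 1 → w 2 = 0 → Sat S w →
      w r = t.eval (fun i => w (ρ i))) ∧
    Cpl N N' S (fun _ _ _ _ => True) := by
  induction t with
  | var i =>
    intro N ρ hN hρ
    refine ⟨[], N, ρ i, le_rfl, hρ i (by simp [Tm.vars]), below_nil N, ?_, cpl_nil N⟩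
    intro M _ _ _ w _ _ _
    rfl
  | zero =>
    intro N ρ hN _
    refine ⟨[], N, 2, le_rfl, by omega, below_nil N, ?_, cpl_nil N⟩
    intro M _ _ _ w _ hw2 _
    exact hw2
  | one =>
    intro N ρ hN _
    refine ⟨[], N, 1, le_rfl, by omega, below_nil N, ?_, cpl_nil N⟩
    intro M _ _ _ w hw1 _ _
    exact hw1
  | add s t hs ht =>
    intro N ρ hN hρ
    obtain ⟨S1, N1, r1, a1, b1, c1, d1, e1⟩ := hs N ρ hN fun i hi => hρ i (by simp [Tm.vars, hi])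
    obtain ⟨S2, N2, r2, a2, b2, c2, d2, e2⟩ := ht N1 ρ (by omega)
      fun i hi => (hρ i (by simp [Tm.vars, hi])).trans_le a1
    refine ⟨(S1 ++ S2) ++ [⟨0, 1, r1, r2, N2⟩], N2 + 1, N2, by omega, by omega,
      below_two a2 c1 c2 (by omega) (by omega) b2, ?_, cpl_two hN a1 a2 c1 c2 e1 e2 (by omega) (by omega) (by omega) b2⟩
    intro M _ _ P w hw1 hw2 hS
    rw [Sat_append, Sat_append] at hS
    obtain ⟨⟨hS1, hS2⟩, hS3⟩ := hS
    have h3 := hS3 ⟨0, 1, r1, r2, N2⟩ (List.mem_singleton.mpr rfl)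
    have h4 : w 1 * w r1 + w r2 = w N2 := (Rl0 P).mp h3
    rw [hw1, one_mul, d1 M P w hw1 hw2 hS1, d2 M P w hw1 hw2 hS2] at h4
    exact h4.symm
  | mul s t hs ht =>
    intro N ρ hN hρ
    obtain ⟨S1, N1, r1, a1, b1, c1, d1, e1⟩ := hs N ρ hN fun i hi => hρ i (by simp [Tm.vars, hi])
    obtain ⟨S2, N2, r2, a2, b2, c2, d2, e2⟩ := ht N1 ρ (by omega)
      fun i hi => (hρ i (by simp [Tm.vars, hi])).trans_le a1
    refine ⟨(S1 ++ S2) ++ [⟨0, r1, r2, 2, N2⟩], N2 + 1, N2, by omega, by omega,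
      below_two a2 c1 c2 (by omega) b2 (by omega), ?_, cpl_two hN a1 a2 c1 c2 e1 e2 (by omega) (by omega) b2 (by omega)⟩
    intro M _ _ P w hw1 hw2 hS
    rw [Sat_append, Sat_append] at hS
    obtain ⟨⟨hS1, hS2⟩, hS3⟩ := hS
    have h3 := hS3 ⟨0, r1, r2, 2, N2⟩ (List.mem_singleton.mpr rfl)
    have h4 : w r1 * w r2 + w 2 = w N2 := (Rl0 P).mp h3
    rw [hw2, add_zero, d1 M P w hw1 hw2 hS1, d2 M P w hw1 hw2 hS2] at h4
    exact h4.symm

end Pool.Agent.H58.EU
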