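import Pool.Agent.H58.EU.Sys1

/-!
# Sys, part 2: `fsys`, `esys`
-/

set_option autoImplicit false

namespace Pool.Agent.H58.EU

open Pool.Agent.H98.EU

theorem sat_two {M : Type} [CommSemiring M] [LinearOrder M] {S1 S2 : List Ins} {c : Ins} {w : ℕ → M}
    (h : Sat ((S1 ++ S2) ++ [c]) w) :
    Sat S1 w ∧ Sat S2 w ∧ Rl (c.o : M) (w c.j) (w c.k) (w c.l) (w c.m) := by
  rw [Sat_append, Sat_append] at h
  exact ⟨h.1.1, h.1.2, h.2 c (List.mem_singleton.mpr rfl)⟩

theorem fsys (A : Fm) (hA : A.Open) : ∀ (N : ℕ) (ρ : ℕ → ℕ), 3 ≤ N → (∀ i ∈ A.vars, ρ i < N) →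
    ∃ (S : List Ins) (N' r : ℕ), N ≤ N' ∧ r < N' ∧ Below N' S ∧
    (∀ (M : Type) [CommSemiring M] [LinearOrder M], PAminus M → ∀ w : ℕ → M, w 1 = 1 → w 2 = 0 → Sat S w →
      (w r = 1 ∧ A.Holds (fun i => w (ρ i))) ∨ (w r = 0 ∧ ¬ A.Holds (fun i => w (ρ i)))) ∧
    Cpl N N' S (fun _ _ _ _ => True) := by
  induction A with
  | eq s t =>
    intro N ρ hN hρ
    obtain ⟨S1, N1, r1, a1, b1, c1, d1, e1⟩ := tsys s N ρ hN fun i hi => hρ i (by simp [Fm.vars, hi])
    obtain ⟨S2, N2, r2, a2, b2, c2, d2, e2⟩ := tsys t N1 ρ (by omega)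
      fun i hi => (hρ i (by simp [Fm.vars, hi])).trans_le a1
    refine ⟨(S1 ++ S2) ++ [⟨1, r1, r2, 1, N2⟩], N2 + 1, N2, by omega, by omega,
      below_two a2 c1 c2 (by omega) b2 (by omega), ?_, cpl_two hN a1 a2 c1 c2 e1 e2 (by omega) (by omega) b2 (by omega)⟩
    intro M _ _ P w hw1 hw2 hS
    obtain ⟨hS1, hS2, h3⟩ := sat_two hS
    have h4 := (Rl1 P).mp h3
    show (w N2 = 1 ∧ s.eval (fun i => w (ρ i)) = t.eval (fun i => w (ρ i))) ∨
      (w N2 = 0 ∧ ¬ s.eval (fun i => w (ρ i)) = t.eval (fun i => w (ρ i)))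
    rw [← d1 M P w hw1 hw2 hS1, ← d2 M P w hw1 hw2 hS2]
    exact h4
  | lt s t =>
    intro N ρ hN hρ
    obtain ⟨S1, N1, r1, a1, b1, c1, d1, e1⟩ := tsys s N ρ hN fun i hi => hρ i (by simp [Fm.vars, hi])
    obtain ⟨S2, N2, r2, a2, b2, c2, d2, e2⟩ := tsys t N1 ρ (by omega)
      fun i hi => (hρ i (by simp [Fm.vars, hi])).trans_le a1
    refine ⟨(S1 ++ S2) ++ [⟨2, r1, r2, 1, N2⟩], N2 + 1, N2, by omega, by omega,
      below_two a2 c1 c2 (by omega) b2 (by omega), ?_, cpl_two hN a1 a2 c1 c2 e1 e2 (by omega) (by omega) b2 (by omega)⟩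
    intro M _ _ P w hw1 hw2 hS
    obtain ⟨hS1, hS2, h3⟩ := sat_two hS
    have h4 := (Rl2 P).mp h3
    show (w N2 = 1 ∧ s.eval (fun i => w (ρ i)) < t.eval (fun i => w (ρ i))) ∨
      (w N2 = 0 ∧ ¬ s.eval (fun i => w (ρ i)) < t.eval (fun i => w (ρ i)))
    rw [← d1 M P w hw1 hw2 hS1, ← d2 M P w hw1 hw2 hS2]
    exact h4
  | neg A ih =>
    intro N ρ hN hρ
    obtain ⟨S1, N1, r1, a1, b1, c1, d1, e1⟩ := ih hA N ρ hN hρ
    refine ⟨(S1 ++ []) ++ [⟨2, r1, 1, 1, N1⟩], N1 + 1, N1, by omega, by omega,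
      below_two le_rfl c1 (below_nil N1) b1 (by omega) (by omega), ?_,
      cpl_two hN a1 le_rfl c1 (below_nil N1) e1 (cpl_nil N1) (by omega) b1 (by omega) (by omega)⟩
    intro M _ _ P w hw1 hw2 hS
    obtain ⟨hS1, _, h3⟩ := sat_two hS
    have h4 : (w N1 = 1 ∧ w r1 < w 1) ∨ (w N1 = 0 ∧ ¬ w r1 < w 1) := (Rl2 P).mp h3
    rw [hw1] at h4
    show (w N1 = 1 ∧ ¬ A.Holds (fun i => w (ρ i))) ∨ (w N1 = 0 ∧ ¬ ¬ A.Holds (fun i => w (ρ i)))
    rcases d1 M P w hw1 hw2 hS1 with ⟨h5, h6⟩ | ⟨h5, h6⟩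
    · rw [h5] at h4
      rcases h4 with ⟨_, h7⟩ | ⟨h7, _⟩
      · exact absurd h7 (lt_irrefl _)
      · exact Or.inr ⟨h7, fun h => h h6⟩
    · rw [h5] at h4
      rcases h4 with ⟨h7, _⟩ | ⟨_, h7⟩
      · exact Or.inl ⟨h7, h6⟩
      · exact absurd P.zero_lt_one h7
  | and A B hA' hB' =>
    intro N ρ hN hρ
    obtain ⟨S1, N1, r1, a1, b1, c1, d1, e1⟩ := hA' hA.1 N ρ hN fun i hi => hρ i (by simp [Fm.vars, hi])
    obtain ⟨S2, N2, r2, a2, b2, c2, d2, e2⟩ := hB' hA.2 N1 ρ (by omega)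
      fun i hi => (hρ i (by simp [Fm.vars, hi])).trans_le a1
    refine ⟨(S1 ++ S2) ++ [⟨0, r1, r2, 2, N2⟩], N2 + 1, N2, by omega, by omega,
      below_two a2 c1 c2 (by omega) b2 (by omega), ?_, cpl_two hN a1 a2 c1 c2 e1 e2 (by omega) (by omega) b2 (by omega)⟩
    intro M _ _ P w hw1 hw2 hS
    obtain ⟨hS1, hS2, h3⟩ := sat_two hS
    have h4 : w r1 * w r2 + w 2 = w N2 := (Rl0 P).mp h3
    rw [hw2, add_zero] at h4
    show (w N2 = 1 ∧ (A.Holds (fun i => w (ρ i)) ∧ B.Holds (fun i => w (ρ i)))) ∨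
      (w N2 = 0 ∧ ¬ (A.Holds (fun i => w (ρ i)) ∧ B.Holds (fun i => w (ρ i))))
    rcases d1 M P w hw1 hw2 hS1 with ⟨h5, h6⟩ | ⟨h5, h6⟩
    · rcases d2 M P w hw1 hw2 hS2 with ⟨h7, h8⟩ | ⟨h7, h8⟩
      · left
        rw [h5, h7, one_mul] at h4
        exact ⟨h4.symm, h6, h8⟩
      · right
        rw [h7, mul_zero] at h4
        exact ⟨h4.symm, fun h => h8 h.2⟩
    · right
      rw [h5, zero_mul] at h4
      exact ⟨h4.symm, fun h => h6 h.1⟩
  | or A B hA' hB' =>
    intro N ρ hN hρ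
    obtain ⟨S1, N1, r1, a1, b1, c1, d1, e1⟩ := hA' hA.1 N ρ hN fun i hi => hρ i (by simp [Fm.vars, hi])
    obtain ⟨S2, N2, r2, a2, b2, c2, d2, e2⟩ := hB' hA.2 N1 ρ (by omega)
      fun i hi => (hρ i (by simp [Fm.vars, hi])).trans_le a1
    have hb := below_two (o := 0) (j := 1) (k := r1) (l := r2) a2 c1 c2 (by omega) (by omega) b2
    have hc := cpl_two (o := 0) (j := 1) (k := r1) (l := r2) hN a1 a2 c1 c2 e1 e2 (by omega) (by omega) (by omega) b2
    refine ⟨(((S1 ++ S2) ++ [⟨0, 1, r1, r2, N2⟩]) ++ []) ++ [⟨2, 2, N2, 1, N2 + 1⟩], N2 + 1 + 1, N2 + 1, by omega, by omega,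
      below_two le_rfl hb (below_nil _) (by omega) (by omega) (by omega), ?_,
      cpl_two hN (by omega) le_rfl hb (below_nil _) hc (cpl_nil _) (by omega) (by omega) (by omega) (by omega)⟩
    intro M _ _ P w hw1 hw2 hS
    obtain ⟨hS12, _, h3⟩ := sat_two hS
    obtain ⟨hS1, hS2, h4⟩ := sat_two hS12
    have h5 : w 1 * w r1 + w r2 = w N2 := (Rl0 P).mp h4
    have h6 : (w (N2 + 1) = 1 ∧ w 2 < w N2) ∨ (w (N2 + 1) = 0 ∧ ¬ w 2 < w N2) := (Rl2 P).mp h3
    rw [hw1, one_mul] at h5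
    rw [hw2] at h6
    show (w (N2 + 1) = 1 ∧ (A.Holds (fun i => w (ρ i)) ∨ B.Holds (fun i => w (ρ i)))) ∨
      (w (N2 + 1) = 0 ∧ ¬ (A.Holds (fun i => w (ρ i)) ∨ B.Holds (fun i => w (ρ i))))
    have hpos : (A.Holds (fun i => w (ρ i)) ∨ B.Holds (fun i => w (ρ i))) ↔ 0 < w N2 := by
      rw [← h5]
      rcases d1 M P w hw1 hw2 hS1 with ⟨h7, h8⟩ | ⟨h7, h8⟩
      · rw [h7]
        refine iff_of_true (Or.inl h8) (P.zero_lt_one.trans_le (P.le_add _ _))
      · rw [h7, zero_add]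
        rcases d2 M P w hw1 hw2 hS2 with ⟨h9, h10⟩ | ⟨h9, h10⟩
        · rw [h9]
          exact iff_of_true (Or.inr h10) P.zero_lt_one
        · rw [h9]
          exact iff_of_false (fun h => h.elim h8 h10) (lt_irrefl _)
    rw [hpos]
    exact h6
  | ex i t A ih => exact hA.elim

theorem esys {A : Fm} (hA : PrenexE1 A) : ∀ (N : ℕ) (ρ : ℕ → ℕ), 3 ≤ N → (∀ i ∈ A.vars, ρ i < N) →
    ∃ (S : List Ins) (N' : ℕ), N ≤ N' ∧ Below N' S ∧
    (∀ (M : Type) [CommSemiring M] [LinearOrder M], PAminus M → ∀ w : ℕ → M, w 1 = 1 → w 2 = 0 → Sat S w →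
      A.Holds (fun i => w (ρ i))) ∧
    Cpl N N' S (fun _ _ _ w => A.Holds (fun i => w (ρ i))) := by
  induction hA with
  | opn A h =>
    intro N ρ hN hρ
    obtain ⟨S1, N1, r1, a1, b1, c1, d1, E, e1⟩ := fsys A h N ρ hN hρ
    refine ⟨(S1 ++ []) ++ [⟨3, 1, r1, 1, 1⟩], N1, a1, ?_, ?_, E, ?_⟩
    · rw [Below_append, Below_append]
      refine ⟨⟨c1, below_nil N1⟩, ?_⟩
      intro c hc
      rw [List.mem_singleton] at hc
      subst hc
      exact ⟨by show 1 < N1; omega, b1, by show 1 < N1; omega, by show 1 < N1; omega⟩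
    · intro M _ _ P w hw1 hw2 hS
      obtain ⟨hS1, _, h3⟩ := sat_two hS
      have h4 : w 1 ≤ w r1 := (Rl3 P).mp h3
      rw [hw1] at h4
      rcases d1 M P w hw1 hw2 hS1 with ⟨_, h6⟩ | ⟨h5, _⟩
      · exact h6
      · rw [h5] at h4
        exact absurd P.zero_lt_one (not_lt.mpr h4)
    · intro M _ _ P w W hw1 hw2 hwW hp
      obtain ⟨w', ha, hb, hc⟩ := e1 M P w W hw1 hw2 hwW trivial
      refine ⟨w', ha, hb, ?_⟩
      have hw1' : w' 1 = 1 := by rw [ha 1 (by omega), hw1]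
      have hw2' : w' 2 = 0 := by rw [ha 2 (by omega), hw2]
      have hH : A.Holds (fun i => w' (ρ i)) := by
        rw [Fm.holds_congr A (fun i => w' (ρ i)) (fun i => w (ρ i)) fun i hi => ha _ (hρ i hi)]
        exact hp
      rw [Sat_append, Sat_append]
      refine ⟨⟨hc, fun c hc => absurd hc List.not_mem_nil⟩, ?_⟩
      intro c hc'
      rw [List.mem_singleton] at hc'
      subst hc'
      refine (Rl3 P).mpr ?_
      show w' 1 ≤ w' r1
      rcases d1 M P w' hw1' hw2' hc with ⟨h5, _⟩ | ⟨_, h6⟩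
      · rw [h5, hw1']
      · exact absurd hH h6
  | ex i t A hi _ ih =>
    intro N ρ hN hρ
    obtain ⟨S1, N1, r1, a1, b1, c1, d1, E1, e1⟩ := tsys t N ρ hN fun j hj => hρ j (by simp [Fm.vars, hj])
    obtain ⟨S3, N3, a3, c3, d3, E3, e3⟩ := ih (N1 + 1) (Function.update ρ i N1) (by omega) (by
      intro j hj
      by_cases hji : j = i
      · rw [hji, Function.update_self]
        exact Nat.lt_succ_self N1
      · rw [Function.update_of_ne hji]
        have := hρ j (by simp [Fm.vars, hj])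
        omega)
    have hupd : ∀ (M : Type) (w : ℕ → M), (fun j => w (Function.update ρ i N1 j)) =
        Function.update (fun j => w (ρ j)) i (w N1) := by
      intro M w
      funext j
      by_cases hji : j = i
      · rw [hji, Function.update_self, Function.update_self]
      · rw [Function.update_of_ne hji, Function.update_of_ne hji]
    refine ⟨S1 ++ ([⟨3, N1, r1, 1, 1⟩] ++ S3), N3, by omega, ?_, ?_, (E1 + 2) * E3, ?_⟩
    · rw [Below_append, Below_append]
      refine ⟨Below_mono c1 (by omega), ?_, c3⟩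
      intro c hc
      rw [List.mem_singleton] at hc
      subst hc
      exact ⟨by show N1 < N3; omega, by show r1 < N3; omega, by show 1 < N3; omega, by show 1 < N3; omega⟩
    · intro M _ _ P w hw1 hw2 hS
      rw [Sat_append, Sat_append] at hS
      obtain ⟨hS1, hS2, hS3⟩ := hS
      have h4 : w N1 ≤ w r1 := (Rl3 P).mp (hS2 ⟨3, N1, r1, 1, 1⟩ (List.mem_singleton.mpr rfl))
      have h5 := d3 M P w hw1 hw2 hS3
      rw [hupd] at h5
      exact ⟨w N1, by rw [← d1 M P w hw1 hw2 hS1]; exact h4, h5⟩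
    · intro M _ _ P w W hw1 hw2 hwW hp
      obtain ⟨a, ha, hA⟩ := hp
      obtain ⟨w', ha', hb', hc'⟩ := e1 M P w W hw1 hw2 hwW trivial
      have hw1' : w' 1 = 1 := by rw [ha' 1 (by omega), hw1]
      have hw2' : w' 2 = 0 := by rw [ha' 2 (by omega), hw2]
      have ht : w' r1 = t.eval (fun j => w (ρ j)) := by
        rw [d1 M P w' hw1' hw2' hc']
        have h6 := Tm.eval_ren id t (fun j => w (ρ j)) (fun j => w' (ρ j)) fun j hj => ha' _ (hρ j (by simp [Fm.vars, hj]))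
        have h7 : ∀ s : Tm, s.ren id = s := by
          intro s
          induction s with
          | var i => rfl
          | zero => rfl
          | one => rfl
          | add s t hs ht => rw [Tm.ren, hs, ht]
          | mul s t hs ht => rw [Tm.ren, hs, ht]
        rw [h7] at h6
        exact h6
      have hx1 : Function.update w' N1 a 1 = 1 := by rw [Function.update_of_ne (by omega), hw1']
      have hx2 : Function.update w' N1 a 2 = 0 := by rw [Function.update_of_ne (by omega), hw2']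
      obtain ⟨w'', ha'', hb'', hc''⟩ := e3 M P (Function.update w' N1 a) ((W + 2) ^ E1) hx1 hx2 (by
        intro j hj
        by_cases hjN : j = N1
        · rw [hjN, Function.update_self]
          rw [← ht] at ha
          exact ha.trans (hb' r1 b1)
        · rw [Function.update_of_ne hjN]
          exact hb' j (by omega)) (by
        show A.Holds (fun j => Function.update w' N1 a (Function.update ρ i N1 j))
        rw [hupd, Function.update_self]
        rw [Fm.holds_congr A _ (Function.update (fun j => w (ρ j)) i a)]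
        · exact hA
        · intro j hj
          by_cases hji : j = i
          · rw [hji, Function.update_self, Function.update_self]
          · rw [Function.update_of_ne hji, Function.update_of_ne hji]
            have h8 := hρ j (by simp [Fm.vars, hj])
            rw [Function.update_of_ne (by omega)]
            exact ha' _ h8)
      have hag : ∀ j < N1, w'' j = w' j := by
        intro j hj
        rw [ha'' j (by omega), Function.update_of_ne (by omega)]
      refine ⟨w'', ?_, ?_, ?_⟩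
      · intro j hj
        rw [hag j (by omega), ha' j hj]
      · intro j hj
        exact (hb'' j hj).trans (P.comp_bd W E1 E3)
      · rw [Sat_append, Sat_append]
        refine ⟨Sat_congr c1 (fun j hj => (hag j hj).symm) hc', ?_, hc''⟩
        intro c hc
        rw [List.mem_singleton] at hc
        subst hc
        refine (Rl3 P).mpr ?_
        show w'' N1 ≤ w'' r1
        rw [ha'' N1 (by omega), Function.update_self, hag r1 b1, ht]
        exact ha

end Pool.Agent.H58.EU
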